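import Pool.Agent.N659.HB.Stm8

/-!
# Project SD (helper659), part KB1 (helper650): second moments of the kernel of the resolvent
-/

set_option autoImplicit false

namespace Pool.Agent.N650.SD

open MeasureTheory Filter Pool.Agent.W792.LL Pool.Agent.W792.WA Pool.Agent.N659.HB
open scoped Topology ENNReal

noncomputable section

lemma unif_compl (w : ℝ) : unif w (Set.Icc (-w) w)ᶜ = 0 := by
  unfold unif
  rw [Measure.smul_apply, Measure.restrict_apply measurableSet_Icc.compl, Set.compl_inter_self,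
    measure_empty, smul_zero]

lemma unif_ae (w : ℝ) : ∀ᵐ t ∂(unif w), |t| ≤ w := by
  have h : unif w {t : ℝ | ¬ |t| ≤ w} ≤ unif w (Set.Icc (-w) w)ᶜ := by
    apply measure_mono
    intro t ht h'
    exact ht (abs_le.2 ⟨h'.1, h'.2⟩)
  rw [unif_compl] at h
  rw [ae_iff]
  exact le_antisymm h zero_le

lemma ae_bd (hRS : S_RS) (d : ℕ) (w : ℝ) [IsProbabilityMeasure (unif w)] (x : Fin d → ℤ) :
    ∀ᵐ v ∂(Pn (unif w) (Fin d → ℤ)), |v x| ≤ w := by
  have h := hRS (unif w) d x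
  have h1 : ∀ᵐ p ∂((Pn (unif w) (Fin d → ℤ)).prod (unif w)),
      |(Function.update p.1 x p.2) x| ≤ w := by
    have h2 : ∀ᵐ p ∂((Pn (unif w) (Fin d → ℤ)).prod (unif w)), |p.2| ≤ w :=
      Measure.quasiMeasurePreserving_snd.ae (unif_ae w)
    filter_upwards [h2] with p hp
    rw [Function.update_self]
    exact hp
  rw [← h.map_eq]
  have hs : MeasurableSet {v : (Fin d → ℤ) → ℝ | |v x| ≤ w} :=
    measurableSet_le ((measurable_pi_apply x).norm) measurable_const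
  exact (ae_map_iff h.aemeasurable hs).2 h1

lemma resample (hRS : S_RS) (d : ℕ) (w : ℝ) [IsProbabilityMeasure (unif w)] (x : Fin d → ℤ)
    (f : ((Fin d → ℤ) → ℝ) → ℝ≥0∞) (hf : Measurable f) :
    ∫⁻ v, f v ∂(Pn (unif w) (Fin d → ℤ)) =
      ∫⁻ v, ∫⁻ t, f (Function.update v x t) ∂(unif w) ∂(Pn (unif w) (Fin d → ℤ)) := by
  have h := hRS (unif w) d x
  rw [← h.lintegral_comp hf]
  exact lintegral_prod (fun p : ((Fin d → ℤ) → ℝ) × ℝ => f (Function.update p.1 x p.2))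
    (hf.comp h.measurable).aemeasurable

lemma one_site (hU1 : S_U1) (w : ℝ) (hw : 0 < w) [IsProbabilityMeasure (unif w)] (ζ : ℂ)
    (hζ : 0 < ζ.im) : ∫⁻ t, ENNReal.ofReal (1 / ‖(t : ℂ) - ζ‖ ^ 2) ∂(unif w) ≤
      ENNReal.ofReal (Real.pi / (2 * w * ζ.im)) := by
  obtain ⟨-, C, hC, h1, -⟩ := hU1 w hw
  have him : ∀ t : ℝ, ζ.im ≤ ‖(t : ℂ) - ζ‖ := by
    intro t
    have h2 := Complex.abs_im_le_norm ((t : ℂ) - ζ)
    rw [Complex.sub_im, Complex.ofReal_im, zero_sub, abs_neg] at h2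
    exact (le_abs_self _).trans h2
  have hint : Integrable (fun t : ℝ => 1 / ‖(t : ℂ) - ζ‖ ^ 2) (unif w) := by
    refine Integrable.of_bound ?_ (1 / ζ.im ^ 2) ?_
    · apply Measurable.aestronglyMeasurable
      fun_prop
    · filter_upwards with t
      rw [Real.norm_eq_abs, abs_of_nonneg (by positivity)]
      exact one_div_le_one_div_of_le (by positivity) (pow_le_pow_left₀ hζ.le (him t) 2)
  rw [← ofReal_integral_eq_lintegral_ofReal hint (Eventually.of_forall fun t => by positivity)]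
  exact ENNReal.ofReal_le_ofReal (h1 ζ hζ)

lemma quot1 {q S : ℝ} (hq : 0 ≤ q) (hS : 1 ≤ S) (h : q ^ 2 ≤ S) : q / √S ≤ q ^ (1 / 4 : ℝ) := by
  have hs1 : 1 ≤ √S := Real.one_le_sqrt.2 hS
  have hs0 : 0 < √S := by linarith
  rcases le_or_gt q 1 with h1 | h1
  · rcases hq.eq_or_lt with h0 | h0
    · rw [← h0, zero_div]
      exact Real.rpow_nonneg le_rfl _
    · calc q / √S ≤ q := div_le_self hq hs1
        _ = q ^ (1 : ℝ) := (Real.rpow_one q).symm
        _ ≤ q ^ (1 / 4 : ℝ) := Real.rpow_le_rpow_of_exponent_ge h0 h1 (by norm_num)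
  · calc q / √S ≤ 1 := by
          rw [div_le_one hs0]
          exact Real.le_sqrt_of_sq_le h
      _ ≤ q ^ (1 / 4 : ℝ) := Real.one_le_rpow h1.le (by norm_num)

lemma quot {q q' S : ℝ} (hq : 0 ≤ q) (hq' : 0 ≤ q') (hS : 1 ≤ S) (h : q ^ 2 ≤ S)
    (h' : q' ^ 2 ≤ S) : q * q' / S ≤ q ^ (1 / 4 : ℝ) * q' ^ (1 / 4 : ℝ) := by
  have e : q * q' / S = (q / √S) * (q' / √S) := by
    rw [div_mul_div_comm, Real.mul_self_sqrt (by linarith)]
  rw [e]
  exact mul_le_mul (quot1 hq hS h) (quot1 hq' hS h') (by positivity) (by positivity)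

lemma half_pow {r : ℝ} (hr : 0 ≤ r) (n : ℕ) : (r ^ n) ^ (1 / 2 : ℝ) = √r ^ n := by
  rw [← Real.sqrt_eq_rpow]
  induction n with
  | zero => simp
  | succ n ih => rw [pow_succ, Real.sqrt_mul (by positivity), ih, pow_succ]

/-- the bound for one pair -/
lemma pair_bd (hRK : S_RK) (hRS : S_RS) (hU1 : S_U1) (d : ℕ) (w γ : ℝ) (ζ : ℂ)
    [IsProbabilityMeasure (unif w)] (hw : 0 < w) (hγ : 0 ≤ γ) (hζ : 0 < ζ.im) (x a b : Fin d → ℤ)
    (r : ℝ) (hr : 0 ≤ r)
    (hF : ∀ a : Fin d → ℤ, ∫ v, ‖Qx w γ ζ x a (Function.update v x w)‖ ^ (1 / 2 : ℝ)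
      ∂(Pn (unif w) (Fin d → ℤ)) ≤ r ^ nd x a) :
    ∫⁻ v, ENNReal.ofReal (‖ge w γ ζ v x a‖ * ‖ge w γ ζ v x b‖) ∂(Pn (unif w) (Fin d → ℤ)) ≤
      ENNReal.ofReal (Real.pi / (2 * w * ζ.im)) *
        (ENNReal.ofReal (√r ^ nd x a) * ENNReal.ofReal (√r ^ nd x b)) := by
  obtain ⟨hZm, hQm, ⟨CQ, hCQ⟩, -, hk⟩ := hRK d w γ ζ hw hγ hζ
  have hZm' := hZm x
  have hQa := hQm x a
  have hQb := hQm x b
  -- the formula for the kernel
  have hae : ∀ᵐ v ∂(Pn (unif w) (Fin d → ℤ)),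
      ENNReal.ofReal (‖ge w γ ζ v x a‖ * ‖ge w γ ζ v x b‖) =
      ENNReal.ofReal (‖Qx w γ ζ x a v‖ * ‖Qx w γ ζ x b v‖) *
        ENNReal.ofReal (1 / ‖((v x : ℝ) : ℂ) - Zx w γ ζ x v‖ ^ 2) := by
    filter_upwards [ae_bd hRS d w x] with v hv
    obtain ⟨-, -, -, -, h5, -⟩ := hk x v
    have e1 := h5 (v x) a hv
    have e2 := h5 (v x) b hv
    rw [Function.update_eq_self] at e1 e2
    rw [← ENNReal.ofReal_mul (by positivity)]
    congr 1
    rw [e1, e2, norm_div, norm_div]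
    ring
  rw [lintegral_congr_ae hae]
  have hmeas : Measurable fun v : (Fin d → ℤ) → ℝ =>
      ENNReal.ofReal (‖Qx w γ ζ x a v‖ * ‖Qx w γ ζ x b v‖) *
        ENNReal.ofReal (1 / ‖((v x : ℝ) : ℂ) - Zx w γ ζ x v‖ ^ 2) := by
    fun_prop
  rw [resample hRS d w x _ hmeas]
  obtain ⟨K, hK⟩ : ∃ K, K = Real.pi / (2 * w * ζ.im) := ⟨_, rfl⟩
  have hK0 : 0 ≤ K := by rw [hK]; positivity
  rw [← hK]
  have hin : ∀ v : (Fin d → ℤ) → ℝ, ∫⁻ t, (ENNReal.ofReal (‖Qx w γ ζ x a (Function.update v x t)‖ *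
      ‖Qx w γ ζ x b (Function.update v x t)‖) *
        ENNReal.ofReal (1 / ‖(((Function.update v x t) x : ℝ) : ℂ) -
          Zx w γ ζ x (Function.update v x t)‖ ^ 2)) ∂(unif w) ≤
      ENNReal.ofReal K * (ENNReal.ofReal (‖Qx w γ ζ x a v‖ ^ (1 / 4 : ℝ)) *
        ENNReal.ofReal (‖Qx w γ ζ x b v‖ ^ (1 / 4 : ℝ))) := by
    intro v
    obtain ⟨h1, h2, h3, h4, -⟩ := hk x v
    have e1 : ∀ t : ℝ, (ENNReal.ofReal (‖Qx w γ ζ x a (Function.update v x t)‖ *
      ‖Qx w γ ζ x b (Function.update v x t)‖) *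
        ENNReal.ofReal (1 / ‖(((Function.update v x t) x : ℝ) : ℂ) -
          Zx w γ ζ x (Function.update v x t)‖ ^ 2)) =
        ENNReal.ofReal (‖Qx w γ ζ x a v‖ * ‖Qx w γ ζ x b v‖) *
          ENNReal.ofReal (1 / ‖(t : ℂ) - Zx w γ ζ x v‖ ^ 2) := by
      intro t
      rw [(h4 t).1, (h4 t).2 a, (h4 t).2 b, Function.update_self]
    simp_rw [e1]
    rw [lintegral_const_mul _ (by fun_prop)]
    obtain ⟨S, hS⟩ : ∃ S, S = ∑' a', ‖Qx w γ ζ x a' v‖ ^ 2 := ⟨_, rfl⟩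
    rw [← hS] at h3
    have hterm : ∀ a', ‖Qx w γ ζ x a' v‖ ^ 2 ≤ S := by
      intro a'
      rw [hS]
      exact h2.le_tsum a' (fun j _ => by positivity)
    have hS1 : 1 ≤ S := by
      have := hterm x
      rw [h1, norm_one, one_pow] at this
      exact this
    have hZ : 0 < (Zx w γ ζ x v).im := by
      rw [h3]
      exact mul_pos hζ (by linarith)
    calc ENNReal.ofReal (‖Qx w γ ζ x a v‖ * ‖Qx w γ ζ x b v‖) *
          ∫⁻ t, ENNReal.ofReal (1 / ‖(t : ℂ) - Zx w γ ζ x v‖ ^ 2) ∂(unif w)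
        ≤ ENNReal.ofReal (‖Qx w γ ζ x a v‖ * ‖Qx w γ ζ x b v‖) *
          ENNReal.ofReal (Real.pi / (2 * w * (Zx w γ ζ x v).im)) :=
          mul_le_mul_right (one_site hU1 w hw _ hZ) _
      _ = ENNReal.ofReal (K * (‖Qx w γ ζ x a v‖ * ‖Qx w γ ζ x b v‖ / S)) := by
          rw [← ENNReal.ofReal_mul (by positivity), h3, hK]
          congr 1
          have hS0 : S ≠ 0 := by linarith
          field_simp
      _ ≤ ENNReal.ofReal (K * (‖Qx w γ ζ x a v‖ ^ (1 / 4 : ℝ) * ‖Qx w γ ζ x b v‖ ^ (1 / 4 : ℝ))) := by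
          apply ENNReal.ofReal_le_ofReal
          apply mul_le_mul_of_nonneg_left _ hK0
          exact quot (norm_nonneg _) (norm_nonneg _) hS1 (hterm a) (hterm b)
      _ = _ := by
          rw [ENNReal.ofReal_mul hK0, ENNReal.ofReal_mul (by positivity)]
  refine (lintegral_mono hin).trans ?_
  rw [lintegral_const_mul _ (by fun_prop)]
  refine mul_le_mul_right ?_ _
  have hCS := ENNReal.lintegral_mul_le_Lp_mul_Lq (Pn (unif w) (Fin d → ℤ))
    Real.HolderConjugate.two_two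
    (f := fun v => ENNReal.ofReal (‖Qx w γ ζ x a v‖ ^ (1 / 4 : ℝ)))
    (g := fun v => ENNReal.ofReal (‖Qx w γ ζ x b v‖ ^ (1 / 4 : ℝ)))
    (by fun_prop) (by fun_prop)
  simp only [Pi.mul_apply] at hCS
  refine hCS.trans ?_
  have hpart : ∀ a' : Fin d → ℤ, (∫⁻ v, (ENNReal.ofReal (‖Qx w γ ζ x a' v‖ ^ (1 / 4 : ℝ))) ^ (2 : ℝ)
      ∂(Pn (unif w) (Fin d → ℤ))) ^ (1 / (2 : ℝ)) ≤ ENNReal.ofReal (√r ^ nd x a') := by
    intro a'
    have hQ' := hQm x a'
    have e1 : ∀ v : (Fin d → ℤ) → ℝ, (ENNReal.ofReal (‖Qx w γ ζ x a' v‖ ^ (1 / 4 : ℝ))) ^ (2 : ℝ) =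
        ENNReal.ofReal (‖Qx w γ ζ x a' v‖ ^ (1 / 2 : ℝ)) := by
      intro v
      rw [ENNReal.ofReal_rpow_of_nonneg (by positivity) (by norm_num), ← Real.rpow_mul (norm_nonneg _)]
      norm_num
    simp_rw [e1]
    have hint : Integrable (fun v => ‖Qx w γ ζ x a' v‖ ^ (1 / 2 : ℝ)) (Pn (unif w) (Fin d → ℤ)) := by
      refine Integrable.of_bound ?_ ((max CQ 0) ^ (1 / 2 : ℝ)) ?_
      · apply Measurable.aestronglyMeasurable
        fun_prop
      · filter_upwards with v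
        rw [Real.norm_eq_abs, abs_of_nonneg (by positivity)]
        exact Real.rpow_le_rpow (norm_nonneg _) ((hCQ x a' v).trans (le_max_left _ _)) (by norm_num)
    rw [← ofReal_integral_eq_lintegral_ofReal hint (Eventually.of_forall fun t => by positivity),
      ENNReal.ofReal_rpow_of_nonneg (integral_nonneg fun v => by positivity) (by norm_num)]
    apply ENNReal.ofReal_le_ofReal
    rw [← half_pow hr]
    apply Real.rpow_le_rpow (integral_nonneg fun v => by positivity) _ (by norm_num)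
    refine le_trans (le_of_eq ?_) (hF a')
    apply integral_congr_ae
    filter_upwards with v
    obtain ⟨-, -, -, h4, -⟩ := hk x v
    rw [(h4 w).2 a']
  exact mul_le_mul' (hpart a) (hpart b)

lemma nd_comm {d : ℕ} (x a : Fin d → ℤ) : nd x a = nd a x := by
  unfold nd
  refine Finset.sum_congr rfl fun i _ => ?_
  omega

/-- geometric sums -/
lemma sum1 {d : ℕ} {C : ℝ} (r : ℝ) (hr0 : 0 ≤ r) (a : Fin d → ℤ)
    (h1 : Summable fun x : Fin d → ℤ => r ^ nd x a) (h2 : ∑' x : Fin d → ℤ, r ^ nd x a ≤ C) :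
    ∑' x : Fin d → ℤ, ENNReal.ofReal (r ^ nd x a) ≤ ENNReal.ofReal C := by
  rw [← ENNReal.ofReal_tsum_of_nonneg (fun x => by positivity) h1]
  exact ENNReal.ofReal_le_ofReal h2

lemma sum2 {d : ℕ} {C : ℝ} (r : ℝ) (hr0 : 0 ≤ r) (a : Fin d → ℤ)
    (h1 : Summable fun x : Fin d → ℤ => r ^ nd x a)
    (h2 : ∑' x : Fin d → ℤ, (if x = a then 0 else r ^ nd x a) ≤ C) :
    ∑' x : Fin d → ℤ, ENNReal.ofReal (if x = a then 0 else r ^ nd x a) ≤ ENNReal.ofReal C := by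
  have h0 : ∀ x : Fin d → ℤ, 0 ≤ (if x = a then 0 else r ^ nd x a) := by
    intro x
    split_ifs
    · exact le_rfl
    · positivity
  rw [← ENNReal.ofReal_tsum_of_nonneg h0]
  · exact ENNReal.ofReal_le_ofReal h2
  · refine Summable.of_nonneg_of_le h0 (fun x => ?_) h1
    split_ifs
    · positivity
    · exact le_rfl

theorem main : S_RK → S_RS → S_U1 → S_FM → S_GS → S_KB1 := by
  intro hRK hRS hU1 hFM hGS d w θ _ hw hθ hθ1
  obtain ⟨CF, γF, hCF, hγF, hF⟩ := hFM d w θ hw hθ hθ1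
  obtain ⟨CG, hCG, hG⟩ := hGS d
  have hCF0 : 0 < CF := by linarith
  have hCG0 : 0 < CG := by linarith
  obtain ⟨A, hA⟩ : ∃ A, A = Real.pi / (2 * w) * CG ^ 2 * CF := ⟨_, rfl⟩
  have hpw : 0 < Real.pi / (2 * w) := by positivity
  refine ⟨max 1 A, min γF (1 / (4 * CF)) ⊓ ((1 / (4 * CF)) ^ 2), le_max_left _ _, by positivity, ?_⟩
  intro γ hγ hγ0 ζ hζ1 hζ hζ2 a
  have hg1 : γ ≤ γF := hγ0.trans (inf_le_left.trans (min_le_left _ _))
  have hg2 : γ ≤ (1 / (4 * CF)) ^ 2 := hγ0.trans inf_le_right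
  obtain ⟨r0, hr0⟩ : ∃ r0, r0 = CF * γ ^ (1 / 2 : ℝ) := ⟨_, rfl⟩
  have hgs : γ ^ (1 / 2 : ℝ) ≤ 1 / (4 * CF) := by
    rw [← Real.sqrt_eq_rpow]
    exact Real.sqrt_le_iff.2 ⟨by positivity, hg2⟩
  have hr00 : 0 ≤ r0 := by rw [hr0]; positivity
  have hr04 : r0 ≤ 1 / 4 := by
    rw [hr0]
    calc CF * γ ^ (1 / 2 : ℝ) ≤ CF * (1 / (4 * CF)) := mul_le_mul_of_nonneg_left hgs hCF0.le
      _ = 1 / 4 := by field_simp
  have hrs : √r0 ≤ 1 / 2 := by
    rw [Real.sqrt_le_iff]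
    exact ⟨by norm_num, by norm_num; linarith⟩
  have hrs0 : 0 ≤ √r0 := Real.sqrt_nonneg _
  have hrr : √r0 * √r0 = r0 := Real.mul_self_sqrt hr00
  have hF' := hF γ hγ hg1 ζ hζ1 hζ hζ2
  rw [← hr0] at hF'
  have hP : ∀ x a b : Fin d → ℤ,
      ∫⁻ v, ENNReal.ofReal (‖ge w γ ζ v x a‖ * ‖ge w γ ζ v x b‖) ∂(Pn (unif w) (Fin d → ℤ)) ≤
      ENNReal.ofReal (Real.pi / (2 * w * ζ.im)) *
        (ENNReal.ofReal (√r0 ^ nd x a) * ENNReal.ofReal (√r0 ^ nd x b)) := fun x a b =>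
    pair_bd hRK hRS hU1 d w γ ζ hw hγ.le hζ x a b r0 hr00 (fun a => (hF' x a x).1)
  obtain ⟨K, hK⟩ : ∃ K, K = Real.pi / (2 * w * ζ.im) := ⟨_, rfl⟩
  rw [← hK] at hP
  have hK0 : 0 ≤ K := by rw [hK]; positivity
  have hKy : K = Real.pi / (2 * w) / ζ.im := by rw [hK]; field_simp
  have hsum1 : ∀ a : Fin d → ℤ, ∑' x : Fin d → ℤ, ENNReal.ofReal (√r0 ^ nd x a) ≤ ENNReal.ofReal CG :=
    fun a => sum1 _ hrs0 a (hG _ hrs0 hrs a).1 (hG _ hrs0 hrs a).2.1
  have hsum2 : ∀ a : Fin d → ℤ, ∑' x : Fin d → ℤ, ENNReal.ofReal (if x = a then 0 else √r0 ^ nd x a) ≤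
      ENNReal.ofReal (CG * √r0) :=
    fun a => sum2 _ hrs0 a (hG _ hrs0 hrs a).1 (hG _ hrs0 hrs a).2.2
  have hmax : A ≤ max 1 A := le_max_right _ _
  have hγh : 0 ≤ γ ^ (1 / 2 : ℝ) := by positivity
  refine ⟨?_, ?_, ?_⟩
  · calc ∑' b : Fin d → ℤ, ∑' x : Fin d → ℤ, ∫⁻ v, ENNReal.ofReal (‖ge w γ ζ v x a‖ * ‖ge w γ ζ v x b‖)
          ∂(Pn (unif w) (Fin d → ℤ))
        ≤ ∑' b : Fin d → ℤ, ∑' x : Fin d → ℤ, ENNReal.ofReal K *
          (ENNReal.ofReal (√r0 ^ nd x a) * ENNReal.ofReal (√r0 ^ nd x b)) :=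
          ENNReal.tsum_le_tsum fun b => ENNReal.tsum_le_tsum fun x => hP x a b
      _ = ∑' x : Fin d → ℤ, ENNReal.ofReal K * (ENNReal.ofReal (√r0 ^ nd x a) *
          ∑' b : Fin d → ℤ, ENNReal.ofReal (√r0 ^ nd b x)) := by
          rw [ENNReal.tsum_comm]
          refine tsum_congr fun x => ?_
          rw [ENNReal.tsum_mul_left, ENNReal.tsum_mul_left]
          congr 2
          refine tsum_congr fun b => ?_
          rw [nd_comm]
      _ ≤ ∑' x : Fin d → ℤ, ENNReal.ofReal K * (ENNReal.ofReal (√r0 ^ nd x a) * ENNReal.ofReal CG) :=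
          ENNReal.tsum_le_tsum fun x => mul_le_mul_right (mul_le_mul_right (hsum1 x) _) _
      _ = ENNReal.ofReal K * ((∑' x : Fin d → ℤ, ENNReal.ofReal (√r0 ^ nd x a)) * ENNReal.ofReal CG) := by
          rw [ENNReal.tsum_mul_left, ENNReal.tsum_mul_right]
      _ ≤ ENNReal.ofReal K * (ENNReal.ofReal CG * ENNReal.ofReal CG) :=
          mul_le_mul_right (mul_le_mul_left (hsum1 a) _) _
      _ = ENNReal.ofReal (K * (CG * CG)) := by
          rw [ENNReal.ofReal_mul hK0, ENNReal.ofReal_mul hCG0.le]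
      _ ≤ ENNReal.ofReal (max 1 A / ζ.im) := by
          apply ENNReal.ofReal_le_ofReal
          rw [hKy, div_mul_eq_mul_div]
          apply div_le_div_of_nonneg_right _ hζ.le
          refine le_trans ?_ hmax
          rw [hA]
          calc Real.pi / (2 * w) * (CG * CG) = Real.pi / (2 * w) * CG ^ 2 * 1 := by ring
            _ ≤ Real.pi / (2 * w) * CG ^ 2 * CF := mul_le_mul_of_nonneg_left hCF (by positivity)
  · calc ∑' b : Fin d → ℤ, ∑' x : Fin d → ℤ, (if x = a ∨ x = b then 0 else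
          ∫⁻ v, ENNReal.ofReal (‖ge w γ ζ v x a‖ * ‖ge w γ ζ v x b‖) ∂(Pn (unif w) (Fin d → ℤ)))
        ≤ ∑' b : Fin d → ℤ, ∑' x : Fin d → ℤ, ENNReal.ofReal K *
          (ENNReal.ofReal (if x = a then 0 else √r0 ^ nd x a) *
            ENNReal.ofReal (if b = x then 0 else √r0 ^ nd b x)) := by
          refine ENNReal.tsum_le_tsum fun b => ENNReal.tsum_le_tsum fun x => ?_
          split_ifs with h1 h2 h3 h4
          · exact zero_le
          · exact zero_le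
          · exact zero_le
          · exact zero_le
          · exact absurd (Or.inl (by assumption)) h1
          · exact absurd (Or.inl (by assumption)) h1
          · exact absurd (Or.inr (by symm; assumption)) h1
          · rw [nd_comm b x]
            exact hP x a b
      _ = ∑' x : Fin d → ℤ, ENNReal.ofReal K * (ENNReal.ofReal (if x = a then 0 else √r0 ^ nd x a) *
          ∑' b : Fin d → ℤ, ENNReal.ofReal (if b = x then 0 else √r0 ^ nd b x)) := by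
          rw [ENNReal.tsum_comm]
          refine tsum_congr fun x => ?_
          rw [ENNReal.tsum_mul_left, ENNReal.tsum_mul_left]
      _ ≤ ∑' x : Fin d → ℤ, ENNReal.ofReal K * (ENNReal.ofReal (if x = a then 0 else √r0 ^ nd x a) *
          ENNReal.ofReal (CG * √r0)) :=
          ENNReal.tsum_le_tsum fun x => mul_le_mul_right (mul_le_mul_right (hsum2 x) _) _
      _ = ENNReal.ofReal K * ((∑' x : Fin d → ℤ, ENNReal.ofReal (if x = a then 0 else √r0 ^ nd x a)) *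
          ENNReal.ofReal (CG * √r0)) := by
          rw [ENNReal.tsum_mul_left, ENNReal.tsum_mul_right]
      _ ≤ ENNReal.ofReal K * (ENNReal.ofReal (CG * √r0) * ENNReal.ofReal (CG * √r0)) :=
          mul_le_mul_right (mul_le_mul_left (hsum2 a) _) _
      _ = ENNReal.ofReal (K * ((CG * √r0) * (CG * √r0))) := by
          rw [ENNReal.ofReal_mul hK0, ENNReal.ofReal_mul (p := CG * √r0) (by positivity)]
      _ ≤ ENNReal.ofReal (max 1 A * γ ^ (1 / 2 : ℝ) / ζ.im) := by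
          apply ENNReal.ofReal_le_ofReal
          rw [hKy, div_mul_eq_mul_div]
          apply div_le_div_of_nonneg_right _ hζ.le
          calc Real.pi / (2 * w) * ((CG * √r0) * (CG * √r0)) =
                Real.pi / (2 * w) * CG ^ 2 * (√r0 * √r0) := by ring
            _ = A * γ ^ (1 / 2 : ℝ) := by rw [hrr, hr0, hA]; ring
            _ ≤ max 1 A * γ ^ (1 / 2 : ℝ) := mul_le_mul_of_nonneg_right hmax hγh
  · have hr02 : r0 ≤ 1 / 2 := by linarith
    have hsum3 := sum2 _ hr00 a (hG _ hr00 hr02 a).1 (hG _ hr00 hr02 a).2.2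
    calc ∑' x : Fin d → ℤ, (if x = a then 0 else
          ∫⁻ v, ENNReal.ofReal (‖ge w γ ζ v x a‖ ^ 2) ∂(Pn (unif w) (Fin d → ℤ)))
        ≤ ∑' x : Fin d → ℤ, ENNReal.ofReal K * ENNReal.ofReal (if x = a then 0 else r0 ^ nd x a) := by
          refine ENNReal.tsum_le_tsum fun x => ?_
          split_ifs with h1
          · exact zero_le
          · have h2 := hP x a a
            rw [← ENNReal.ofReal_mul (by positivity), ← mul_pow, hrr] at h2
            refine le_trans (le_of_eq ?_) h2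
            refine lintegral_congr fun v => ?_
            rw [pow_two]
      _ = ENNReal.ofReal K * ∑' x : Fin d → ℤ, ENNReal.ofReal (if x = a then 0 else r0 ^ nd x a) := by
          rw [ENNReal.tsum_mul_left]
      _ ≤ ENNReal.ofReal K * ENNReal.ofReal (CG * r0) := mul_le_mul_right hsum3 _
      _ = ENNReal.ofReal (K * (CG * r0)) := by rw [ENNReal.ofReal_mul hK0]
      _ ≤ ENNReal.ofReal (max 1 A * γ ^ (1 / 2 : ℝ) / ζ.im) := by
          apply ENNReal.ofReal_le_ofReal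
          rw [hKy, div_mul_eq_mul_div]
          apply div_le_div_of_nonneg_right _ hζ.le
          calc Real.pi / (2 * w) * (CG * r0) ≤ Real.pi / (2 * w) * (CG ^ 2 * r0) := by
                apply mul_le_mul_of_nonneg_left _ hpw.le
                apply mul_le_mul_of_nonneg_right _ hr00
                nlinarith
            _ = A * γ ^ (1 / 2 : ℝ) := by rw [hr0, hA]; ring
            _ ≤ max 1 A * γ ^ (1 / 2 : ℝ) := mul_le_mul_of_nonneg_right hmax hγh

end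

end Pool.Agent.N650.SD
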